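import Pool.Agent.W_MP_458e77_lc.Hard
import Pool.Agent.W_MP_458e77_lc.AtmParity

namespace Pool.Agent.Results.MP_458e77_lc.NonSolvableNotHard

open Pool.Agent.W_MP_458e77_lc

theorem parityFn_eq (n : ℕ) (x : Fin n → Bool) :
    parityFn n x = true ↔ List.ofFn x ∈ Parity := by
  unfold parityFn Parity
  rw [decide_eq_true_iff, Set.mem_ofPred_eq]
  have h : (Finset.univ.filter fun i => x i = true).card = (List.ofFn x).count true := by
    induction n with
    | zero => simp
    | succ n ih =>
      rw [List.ofFn_succ, List.count_cons, ← ih, Finset.card_filter, Fin.sum_univ_succ,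
        Finset.card_filter, add_comm]
      rcases x 0 with _ | _ <;> rfl
  rw [h]

open Classical in
/-- **A finitely generated non-solvable group whose word problem is not ALOGTIME-hard.**
PARITY is in ALOGTIME, and there is a finitely generated non-solvable group `G` such that PARITY is
not reducible to the word problem of `G` (with respect to any finite family of elements of `G`),
even by non-uniform `AC⁰` Turing reductions. -/
theorem result : Alogtime Parity ∧
    ∃ (G : Type) (_ : Group G), Group.FG G ∧ ¬ Group.IsSolvable G ∧
      ∀ (A : Type) [Finite A] (g : A → G), ¬ AC0Reducible Parity (WP g) := by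
  refine ⟨parity_alogtime, GG, inferInstance, GG_fg, GG_not_solvable, ?_⟩
  rintro A _ g ⟨d, c, h⟩
  obtain ⟨n, hn⟩ := parity_not_reducible g d c
  apply hn
  have e : (fun x : Fin n → Bool => decide (List.ofFn x ∈ Parity)) = parityFn n := by
    funext x
    rw [Bool.eq_iff_iff, decide_eq_true_iff, parityFn_eq]
  rw [← e]
  exact h n

end Pool.Agent.Results.MP_458e77_lc.NonSolvableNotHard
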